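import Pool.Agent.H17.UN.Tow

/-!
# MP_8b378c_ag: the components of the degenerate fibres form a system
-/

set_option autoImplicit false

open Polynomial
open Pool.Agent.H17.UN

namespace Pool.Agent.H80.UN

section pd

variable {k F : Type} [Field k] [Field F] [Algebra k F] {n : ℕ} {A : Fin n → Subalgebra k F}

theorem ord_one' (v : PrimeDivisor A) : v.ord 1 = 0 := by
  have h := v.ord_mul 1 1 one_ne_zero one_ne_zero
  rw [mul_one] at h
  omega

theorem ord_const (v : PrimeDivisor A) (c : k) (hc : c ≠ 0) : v.ord (algebraMap k F c) = 0 := by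
  obtain ⟨i, hi, -⟩ := v.centre
  have hm : algebraMap k F c ≠ 0 := (_root_.map_ne_zero _).2 hc
  have hm' : algebraMap k F c⁻¹ ≠ 0 := (_root_.map_ne_zero _).2 (inv_ne_zero hc)
  have h1 := hi _ ((A i).algebraMap_mem c)
  have h2 := hi _ ((A i).algebraMap_mem c⁻¹)
  have h3 := v.ord_mul _ _ hm hm'
  rw [← map_mul, mul_inv_cancel₀ hc, map_one, ord_one'] at h3
  omega

theorem ord_div' (v : PrimeDivisor A) (a b : F) (ha : a ≠ 0) (hb : b ≠ 0) :
    v.ord (a / b) = v.ord a - v.ord b := by
  have h := v.ord_mul (a / b) b (div_ne_zero ha hb) hb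
  rw [div_mul_cancel₀ _ hb] at h
  omega

end pd

section mon

variable {K L : Type} [Field K] [Field L] [Algebra K L] {F Kb : IntermediateField K L} {m : ℕ}

theorem prod_single {r : ℕ} (t : Fin r → Lˣ) (j : Fin r) :
    ∏ i, t i ^ ((Pi.single j (1 : ℤ) : Fin r → ℤ) i) = t j := by
  rw [Finset.prod_eq_single j]
  · rw [Pi.single_eq_same, zpow_one]
  · intro b _ hb
    rw [Pi.single_eq_of_ne hb, zpow_zero]
  · intro h
    exact absurd (Finset.mem_univ _) h

theorem mon_single {r : ℕ} (t : Fin r → Lˣ) (j : Fin r) :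
    mon (F := F) (Kb := Kb) t 1 (Pi.single j 1) = t j := by
  unfold mon
  rw [prod_single, map_one, one_mul]

theorem mon_two {r : ℕ} (t : Fin r → Lˣ) (f : (Fb F Kb)ˣ) (a b j : Fin r) :
    mon t f (Pi.single a 1 + Pi.single b 1 - Pi.single j 1) =
      Units.map (algebraMap (Fb F Kb) L : Fb F Kb →* L) f * (t a * t b * (t j)⁻¹) := by
  unfold mon
  congr 1
  have h : ∀ i, t i ^ ((Pi.single a (1 : ℤ) + Pi.single b 1 - Pi.single j 1 : Fin r → ℤ) i) =
      t i ^ ((Pi.single a (1 : ℤ) : Fin r → ℤ) i) * t i ^ ((Pi.single b (1 : ℤ) : Fin r → ℤ) i) *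
        (t i ^ ((Pi.single j (1 : ℤ) : Fin r → ℤ) i))⁻¹ := by
    intro i
    rw [Pi.sub_apply, Pi.add_apply, zpow_sub, zpow_add]
  rw [Finset.prod_congr rfl fun i _ => h i, Finset.prod_mul_distrib, Finset.prod_mul_distrib,
    Finset.prod_inv_distrib, prod_single, prod_single, prod_single]

open Classical in
theorem sum_single {A : Fin m → Subalgebra Kb (Fb F Kb)} {r : ℕ} (D : Fin r → PrimeDivisor A)
    (v : PrimeDivisor A) (j : Fin r) :
    (∑ i, if v = D i then (Pi.single j (1 : ℤ) : Fin r → ℤ) i else 0) =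
      if v = D j then 1 else 0 := by
  rw [Finset.sum_eq_single j]
  · rw [Pi.single_eq_same]
  · intro b _ hb
    rw [Pi.single_eq_of_ne hb, ite_self]
  · intro h
    exact absurd (Finset.mem_univ _) h

open Classical in
theorem dn_single {A : Fin m → Subalgebra Kb (Fb F Kb)} {r : ℕ} (D : Fin r → PrimeDivisor A)
    (v : PrimeDivisor A) (j : Fin r) :
    dn D 1 (Pi.single j 1) v = if v = D j then 1 else 0 := by
  unfold dn
  rw [sum_single, Units.val_one, ord_one', zero_add]

open Classical in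
theorem dn_two {A : Fin m → Subalgebra Kb (Fb F Kb)} {r : ℕ} (D : Fin r → PrimeDivisor A)
    (v : PrimeDivisor A) (f : (Fb F Kb)ˣ) (a b j : Fin r) :
    dn D f (Pi.single a 1 + Pi.single b 1 - Pi.single j 1) v = v.ord (f : Fb F Kb) +
      ((if v = D a then 1 else 0) + (if v = D b then 1 else 0) - if v = D j then 1 else 0) := by
  unfold dn
  congr 1
  have h : ∀ i, (if v = D i then
      (Pi.single a (1 : ℤ) + Pi.single b 1 - Pi.single j 1 : Fin r → ℤ) i else 0) =
      (if v = D i then (Pi.single a (1 : ℤ) : Fin r → ℤ) i else 0) +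
      (if v = D i then (Pi.single b (1 : ℤ) : Fin r → ℤ) i else 0) -
      (if v = D i then (Pi.single j (1 : ℤ) : Fin r → ℤ) i else 0) := by
    intro i
    by_cases hv : v = D i
    · simp only [if_pos hv, Pi.sub_apply, Pi.add_apply]
    · simp only [if_neg hv, add_zero, sub_zero]
  rw [Finset.sum_congr rfl fun i _ => h i, Finset.sum_sub_distrib, Finset.sum_add_distrib,
    sum_single, sum_single, sum_single]

end mon

section act

variable {K L : Type} [Field K] [Field L] [Algebra K L] {F Kb Ω : IntermediateField K L}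
  {s' y' z' : Fb F Kb}

/-- the action on the components -/
theorem act_cmp {P2 Q2 : Kb[X]} {σ : L ≃ₐ[Ω] L} (hs : σ (s' : L) = s') (hy : σ (y' : L) = y')
    (hz : σ (z' : L) = z') {v v' : PrimeDivisor (ch Kb s' y' z')} (h : Img σ v v') {a ρ1 ρ2 : Kb}
    (ha : σ (a : L) = a) (hρ : (ρ2 : L) = σ (ρ1 : L)) (hρ2 : ρ2 ^ 2 = ρ1 ^ 2) :
    Cmp P2 Q2 a ρ1 v ↔ Cmp P2 Q2 a ρ2 v' := by
  have e1 : v'.ord (s' - algebraMap Kb (Fb F Kb) a) = v.ord (s' - algebraMap Kb (Fb F Kb) a) := by
    apply h
    show (s' : L) - (a : L) = σ ((s' : L) - (a : L))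
    rw [map_sub, hs, ha]
  have e2 : v'.ord (y' - algebraMap Kb (Fb F Kb) ρ2) =
      v.ord (y' - algebraMap Kb (Fb F Kb) ρ1) := by
    apply h
    show (y' : L) - (ρ2 : L) = σ ((y' : L) - (ρ1 : L))
    rw [map_sub, hy, hρ]
  have e3 : v'.ord (y' - algebraMap Kb (Fb F Kb) ρ2 * z') =
      v.ord (y' - algebraMap Kb (Fb F Kb) ρ1 * z') := by
    apply h
    show (y' : L) - (ρ2 : L) * (z' : L) = σ ((y' : L) - (ρ1 : L) * (z' : L))
    rw [map_sub, map_mul, hy, hz, hρ]
  unfold Cmp
  rw [e1, e2, e3, hρ2]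

/-- the action on the components at infinity -/
theorem act_inf {Q2 : Kb[X]} {σ : L ≃ₐ[Ω] L} (hs : σ (s' : L) = s') (hy : σ (y' : L) = y')
    (hz : σ (z' : L) = z') {v v' : PrimeDivisor (ch Kb s' y' z')} (h : Img σ v v') {ρ1 ρ2 : Kb}
    (hρ : (ρ2 : L) = σ (ρ1 : L)) (hρ2 : ρ2 ^ 2 = ρ1 ^ 2) :
    CmpInf Q2 ρ1 v ↔ CmpInf Q2 ρ2 v' := by
  have e1 : v'.ord s' = v.ord s' := by
    apply h
    exact hs.symm
  have e2 : v'.ord (y' / (s' * z') - algebraMap Kb (Fb F Kb) ρ2) =
      v.ord (y' / (s' * z') - algebraMap Kb (Fb F Kb) ρ1) := by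
    apply h
    show (y' : L) / ((s' : L) * (z' : L)) - (ρ2 : L) =
      σ ((y' : L) / ((s' : L) * (z' : L)) - (ρ1 : L))
    rw [map_sub, map_div₀, map_mul, hy, hz, hs, hρ]
  unfold CmpInf
  rw [e1, e2, hρ2]

/-- the case where `σ` permutes the semi-invariant functions -/
theorem gal_one {m : ℕ} {A : Fin m → Subalgebra Kb (Fb F Kb)} {i₀ : Fin m} {φ : A i₀ →ₐ[Kb] Kb}
    (hval : ∀ c : Kb, Val φ (algebraMap Kb (Fb F Kb) c) c) {σ : L ≃ₐ[Ω] L} {r : ℕ}
    {t : Fin r → Lˣ} {D : Fin r → PrimeDivisor A} (j j' : Fin r)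
    (h1 : σ (t j : L) = (t j' : L)) (h2 : ∀ v v', Img σ v v' → (v = D j ↔ v' = D j')) :
    ∃ (f : (Fb F Kb)ˣ) (n : Fin r → ℤ),
    Units.map (σ : L →* L) (t j) = mon t f n ∧ Val φ (f : Fb F Kb) 1 ∧
    ∀ v v' : PrimeDivisor A, Img σ v v' → dl (D j) v = dn D f n v' := by
  classical
  refine ⟨1, Pi.single j' 1, ?_, ?_, ?_⟩
  · rw [mon_single]
    exact Units.ext h1
  · have h3 := hval 1
    rw [map_one] at h3
    exact h3
  · intro v v' h
    rw [dn_single]
    unfold dl
    by_cases hv : v = D j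
    · rw [if_pos hv, if_pos ((h2 v v' h).1 hv)]
    · rw [if_neg hv, if_neg (fun h3 => hv ((h2 v v' h).2 h3))]

end act

theorem sq_eq {L : Type} [Field L] {a b : L} (h : a ^ 2 = b ^ 2) : a = b ∨ a = -b :=
  sq_eq_sq_iff_eq_or_eq_neg.1 h

theorem pf_SY7 (hVEX : T_VEX) (hVUN : T_VUN) (hVDS : T_VDS) (hKER : T_KER) (hSEC : T_SEC)
    (hDSE : T_DSE) (hXAL : T_XAL) (hFBS : T_FBS) (hCBB : T_CBB) (hIMG : T_IMG) (hVAL : T_VAL)
    (hDRT : T_DRT) : T_SY7 := by
  intro K L _ _ _ _ P Q e c c' p0 F Kb Ω0 Ω s y z v X Y X' Y' w hD hT r ρ hr hρ s' y' z' hs hy hz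
    φ hφ D hF t ht
  classical
  have hL0 : CharZero L := charZero_of_injective_algebraMap (algebraMap K L).injective
  have hK0 : CharZero Kb := charZero_of_injective_algebraMap (algebraMap K Kb).injective
  have hcl : IsAlgClosed Kb := hT.cls
  have hCB := hCBB K L P Q e c c' p0 F Kb Ω0 Ω s y z v X Y X' Y' w hD hT s' y' z' hs hy hz
  have hB := hFBS K L P Q e c c' p0 F Kb Ω0 Ω s y z v X Y X' Y' w hD hT s' y' z' hs hy hz φ hφ
  have hv4 := (hVAL K L F Kb Ω 4 (ch Kb s' y' z') 0 φ hB).2.2.2.1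
  obtain ⟨hc0, hc'0, hQ1, -⟩ := hDRT K P Q e c c' p0 hD
  have hs0 : s' ∈ ch Kb s' y' z' 0 := by
    show s' ∈ Algebra.adjoin Kb {s', y', z'}
    exact Algebra.subset_adjoin (by simp)
  have hφs : φ ⟨s', hs0⟩ = 1 := (hφ ⟨s', hs0⟩).1 rfl
  -- the elements which are fixed
  have hle : Ω0 ≤ Ω := by rw [hT.hΩ]; exact le_sup_left
  have hfix : ∀ (σ : L ≃ₐ[Ω] L) (x : L), x ∈ Ω → σ x = x := by
    intro σ x hx
    exact σ.commutes ⟨x, hx⟩
  have hsΩ : s ∈ Ω := hle (by
    rw [hT.hΩ0]; exact IntermediateField.subset_adjoin _ _ (by simp))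
  have hyΩ : y ∈ Ω := hle (by
    rw [hT.hΩ0]; exact IntermediateField.subset_adjoin _ _ (by simp))
  have hzΩ : z ∈ Ω := hle (by
    rw [hT.hΩ0]; exact IntermediateField.subset_adjoin _ _ (by simp))
  have hXΩ : ∀ i, X i ∈ Ω := fun i => hle (by
    rw [hT.hΩ0]; exact IntermediateField.subset_adjoin _ _ (by simp))
  have hYΩ : ∀ i, Y i ∈ Ω := fun i => hle (by
    rw [hT.hΩ0]; exact IntermediateField.subset_adjoin _ _ (by simp))
  have hX'Ω : X' ∈ Ω := hle (by
    rw [hT.hΩ0]; exact IntermediateField.subset_adjoin _ _ (by simp))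
  have hY'Ω : Y' ∈ Ω := hle (by
    rw [hT.hΩ0]; exact IntermediateField.subset_adjoin _ _ (by simp))
  have hKΩ : ∀ a : K, algebraMap K L a ∈ Ω := fun a => Ω.algebraMap_mem a
  have t5 : (t 5 : L) = X' + ρ * Y' := ht 5
  have t6 : (t 6 : L) = X' - ρ * Y' := ht 6
  have tj : ∀ i : Fin 5, (t (Fin.castAdd 2 i) : L) = X i + r i * Y i := by
    intro i
    rw [ht]
    fin_cases i <;> rfl
  have hVU := fun v v' => hVUN Kb (Fb F Kb) _ _ s' y' z' hCB v v'
  refine ⟨?_, ?_, ?_, ?_⟩
  · -- algebraic independence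
    have h1 := (hXAL K L P Q e c c' p0 F Kb Ω0 Ω s y z v X Y X' Y' w hD hT r ρ hr hρ).1
    have h2 := h1.comp Fin.castSucc (Fin.castSucc_injective 7)
    have h3 : (fun j => (t j : L)) =
        (Fin.snoc (tt X Y X' Y' r ρ) w : Fin 8 → L) ∘ Fin.castSucc := by
      funext j
      rw [Function.comp_apply, Fin.snoc_castSucc, ht j]
    rw [h3]
    exact h2
  · -- kernel
    intro f n hn
    obtain ⟨D1, -, hD1, -⟩ := hSEC Kb (Fb F Kb) _ _ s' y' z' hCB (algebraMap K Kb p0) φ
      ((_root_.map_ne_zero _).2 hD.p0) (by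
        rw [← map_pow, hD.pt]
        have h1 : (P.map (algebraMap K Kb)).eval 1 = algebraMap K Kb (P.eval 1) := by
          rw [← map_one (algebraMap K Kb), eval_map_apply]
        rw [h1]) hφ (by
        have h1 : (Q.map (algebraMap K Kb)).eval 1 = algebraMap K Kb (Q.eval 1) := by
          rw [← map_one (algebraMap K Kb), eval_map_apply]
        rw [h1]
        exact (_root_.map_ne_zero _).2 hQ1)
    obtain ⟨h1, -, h3⟩ := hKER Kb (Fb F Kb) _ _ s' y' z' hCB _ r ρ D D1 hF hD1 (f : Fb F Kb) n 0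
      f.ne_zero (by
        intro v
        have h1 := hn v
        unfold dn at h1
        rw [h1]
        simp)
    exact ⟨h1, h3⟩
  · -- the point is not on the components
    have h1 : ∀ i : Fin 5, ¬ On φ (D (Fin.castAdd 2 i)) := by
      rintro i ⟨-, h2⟩
      have h3 := (hF.cmp i).1
      have hm : s' - algebraMap Kb (Fb F Kb) (algebraMap K Kb (e i)) ∈ ch Kb s' y' z' 0 :=
        (ch Kb s' y' z' 0).sub_mem hs0 ((ch Kb s' y' z' 0).algebraMap_mem _)
      have h4 := h2 ⟨_, hm⟩ (by
        have h5 : (⟨_, hm⟩ : ch Kb s' y' z' 0) =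
            ⟨s', hs0⟩ - algebraMap Kb (ch Kb s' y' z' 0) (algebraMap K Kb (e i)) := rfl
        rw [h5, map_sub, hφs, AlgHom.commutes]
        show (1 : Kb) - algebraMap K Kb (e i) ≠ 0
        rw [← map_one (algebraMap K Kb), ← map_sub]
        exact (_root_.map_ne_zero _).2 (sub_ne_zero.2 (hD.one i).symm))
      rw [h3] at h4
      exact absurd h4 one_ne_zero
    have h2 : ∀ v : PrimeDivisor (ch Kb s' y' z'), v.ord s' = -1 → ¬ On φ v := by
      rintro v hv ⟨h3, -⟩
      have h4 := h3 s' hs0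
      omega
    intro j
    have hcase : (∃ i : Fin 5, j = Fin.castAdd 2 i) ∨ j = 5 ∨ j = 6 := by
      revert j; decide
    rcases hcase with ⟨i, rfl⟩ | rfl | rfl
    · exact h1 i
    · exact h2 _ hF.pos.1
    · exact h2 _ hF.neg.1
  · -- the Galois action
    intro σ j
    have hσs : σ (s' : L) = s' := by rw [hs]; exact hfix σ s hsΩ
    have hσy : σ (y' : L) = y' := by rw [hy]; exact hfix σ y hyΩ
    have hσz : σ (z' : L) = z' := by rw [hz]; exact hfix σ z hzΩ
    have hcase : (∃ i : Fin 5, j = Fin.castAdd 2 i) ∨ j = 5 ∨ j = 6 := by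
      revert j; decide
    have hσρ : σ (ρ : L) = ρ ∨ σ (ρ : L) = -ρ := by
      apply sq_eq
      rw [← map_pow, hρ]
      exact hfix σ _ (hKΩ c')
    rcases hcase with ⟨i, rfl⟩ | rfl | rfl
    · -- a degenerate fibre
      have hσr : σ (r i : L) = r i ∨ σ (r i : L) = -r i := by
        apply sq_eq
        rw [← map_pow, hr]
        exact hfix σ _ (hKΩ (c i))
      have hσe : σ ((algebraMap K Kb (e i) : Kb) : L) = (algebraMap K Kb (e i) : Kb) :=
        hfix σ _ (hKΩ (e i))
      rcases hσr with h | h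
      · -- the component is fixed
        refine gal_one hv4 _ (Fin.castAdd 2 i) ?_ ?_
        · rw [tj, map_add, map_mul, hfix σ _ (hXΩ i), hfix σ _ (hYΩ i), h]
        · intro v v' hv
          have h1 := act_cmp (P2 := P.map (algebraMap K Kb)) (Q2 := Q.map (algebraMap K Kb))
            hσs hσy hσz hv hσe (ρ1 := r i) (ρ2 := r i) h.symm rfl
          constructor
          · rintro rfl
            exact (hVU _ _).1 _ _ (h1.1 (hF.cmp i)) (hF.cmp i)
          · rintro rfl
            exact (hVU _ _).1 _ _ (h1.2 (hF.cmp i)) (hF.cmp i)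
      · -- the components are exchanged
        have h2 : (P.map (algebraMap K Kb)).eval (algebraMap K Kb (e i)) =
            algebraMap K Kb (P.eval (e i)) := eval_map_apply _ _
        have h3 : (Q.map (algebraMap K Kb)).eval (algebraMap K Kb (e i)) =
            algebraMap K Kb (Q.eval (e i)) := eval_map_apply _ _
        have hr2 : (r i) ^ 2 = algebraMap K Kb (c i) := Subtype.ext (hr i)
        obtain ⟨Dm, hDm⟩ := (hVEX Kb (Fb F Kb) _ _ s' y' z' hCB).1 (algebraMap K Kb (e i)) (-r i)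
          (by
            rw [h2, h3, neg_sq, hr2]
            rcases hD.rts i with ⟨h4, h5⟩ | ⟨h4, h5⟩
            · right
              rw [h4, map_zero, h5]
              exact ⟨rfl, rfl⟩
            · left
              rw [h4, map_zero, h5]
              exact ⟨rfl, rfl⟩)
        have hdse := hDSE Kb (Fb F Kb) _ _ s' y' z' hCB _ r ρ D hF i Dm hDm
        -- the function
        have h1e : (1 : Kb) - algebraMap K Kb (e i) ≠ 0 := by
          rw [← map_one (algebraMap K Kb), ← map_sub]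
          exact (_root_.map_ne_zero _).2 (sub_ne_zero.2 (hD.one i).symm)
        have h1e' : algebraMap Kb (Fb F Kb) (1 - algebraMap K Kb (e i)) ≠ 0 :=
          (_root_.map_ne_zero _).2 h1e
        have hσt : σ (t (Fin.castAdd 2 i) : L) = X i - r i * Y i := by
          rw [tj, map_add, map_mul, hfix σ _ (hXΩ i), hfix σ _ (hYΩ i), h]; ring
        have heq : ((s' : L) - (algebraMap K Kb (e i) : Kb)) * ((t 5 : L) * (t 6 : L)) =
            (1 - (algebraMap K Kb (e i) : Kb)) *
              ((t (Fin.castAdd 2 i) : L) * σ (t (Fin.castAdd 2 i) : L)) := by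
          have h4 := hT.eqs i
          have h5 := hT.inf
          have h6 : ((algebraMap K Kb (e i) : Kb) : L) = algebraMap K L (e i) := rfl
          rw [h6, hσt, t5, t6, tj, hs]
          rw [map_sub, map_one] at h4
          linear_combination h4 - (s - algebraMap K L (e i)) * h5 -
            (s - algebraMap K L (e i)) * Y' ^ 2 * hρ +
            (1 - algebraMap K L (e i)) * Y i ^ 2 * hr i
        have hne : s' - algebraMap Kb (Fb F Kb) (algebraMap K Kb (e i)) ≠ 0 := by
          intro h0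
          have h4 : (s' : L) - (algebraMap K Kb (e i) : Kb) = 0 := congrArg Subtype.val h0
          rw [h4, zero_mul] at heq
          have h5 : (1 : L) - (algebraMap K Kb (e i) : Kb) ≠ 0 := by
            intro h6
            exact h1e (Subtype.ext h6)
          have h7 : σ (t (Fin.castAdd 2 i) : L) ≠ 0 := (_root_.map_ne_zero σ).2 (t _).ne_zero
          exact mul_ne_zero h5 (mul_ne_zero (t _).ne_zero h7) heq.symm
        refine ⟨Units.mk0 ((s' - algebraMap Kb (Fb F Kb) (algebraMap K Kb (e i))) /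
          algebraMap Kb (Fb F Kb) (1 - algebraMap K Kb (e i))) (div_ne_zero hne h1e'),
          Pi.single 5 1 + Pi.single 6 1 - Pi.single (Fin.castAdd 2 i) 1, ?_, ?_, ?_⟩
        · rw [mon_two]
          apply Units.ext
          show σ (t (Fin.castAdd 2 i) : L) =
            (((s' : L) - (algebraMap K Kb (e i) : Kb)) / (1 - (algebraMap K Kb (e i) : Kb))) *
              ((t 5 : L) * (t 6 : L) * ((t (Fin.castAdd 2 i))⁻¹ : Lˣ))
          rw [Units.val_inv_eq_inv_val]
          have h5 : (1 : L) - (algebraMap K Kb (e i) : Kb) ≠ 0 := by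
            intro h6
            exact h1e (Subtype.ext h6)
          have h6 : (t (Fin.castAdd 2 i) : L) ≠ 0 := (t _).ne_zero
          field_simp
          linear_combination -heq
        · have hm : s' - algebraMap Kb (Fb F Kb) (algebraMap K Kb (e i)) ∈ ch Kb s' y' z' 0 :=
            (ch Kb s' y' z' 0).sub_mem hs0 ((ch Kb s' y' z' 0).algebraMap_mem _)
          refine ⟨⟨_, hm⟩, algebraMap Kb (ch Kb s' y' z' 0) (1 - algebraMap K Kb (e i)), ?_, ?_, ?_⟩
          · rw [AlgHom.commutes]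
            exact h1e
          · show ((s' - algebraMap Kb (Fb F Kb) (algebraMap K Kb (e i))) /
              algebraMap Kb (Fb F Kb) (1 - algebraMap K Kb (e i))) *
              algebraMap Kb (Fb F Kb) (1 - algebraMap K Kb (e i)) = _
            rw [div_mul_cancel₀ _ h1e']
          · have h5 : (⟨_, hm⟩ : ch Kb s' y' z' 0) =
              ⟨s', hs0⟩ - algebraMap Kb (ch Kb s' y' z' 0) (algebraMap K Kb (e i)) := rfl
            rw [h5, map_sub, hφs, AlgHom.commutes, AlgHom.commutes, one_mul]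
            rfl
        · intro v v' hv
          rw [dn_two, Units.val_mk0, ord_div' _ _ _ hne h1e', ord_const _ _ h1e, hdse v']
          have h4 := act_cmp (P2 := P.map (algebraMap K Kb)) (Q2 := Q.map (algebraMap K Kb))
            hσs hσy hσz hv hσe (ρ1 := r i) (ρ2 := -r i) (by
              show -(r i : L) = _
              exact h.symm) (neg_sq _)
          have h5 : v = D (Fin.castAdd 2 i) ↔ v' = Dm := by
            constructor
            · rintro rfl
              exact (hVU _ _).1 _ _ (h4.1 (hF.cmp i)) hDm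
            · rintro rfl
              exact (hVU _ _).1 _ _ (h4.2 hDm) (hF.cmp i)
          unfold dl
          by_cases h6 : v = D (Fin.castAdd 2 i)
          · rw [if_pos h6, if_pos (h5.1 h6)]
            ring
          · rw [if_neg h6, if_neg (fun h7 => h6 (h5.2 h7))]
            ring
    · -- the component `D 5`
      rcases hσρ with h | h
      · refine gal_one hv4 _ 5 ?_ ?_
        · rw [t5, map_add, map_mul, hfix σ _ hX'Ω, hfix σ _ hY'Ω, h]
        · intro v v' hv
          have h1 := act_inf (Q2 := Q.map (algebraMap K Kb)) hσs hσy hσz hv (ρ1 := ρ) (ρ2 := ρ)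
            h.symm rfl
          constructor
          · rintro rfl
            exact (hVU _ _).2 _ (h1.1 hF.pos) hF.pos
          · rintro rfl
            exact (hVU _ _).2 _ (h1.2 hF.pos) hF.pos
      · refine gal_one hv4 _ 6 ?_ ?_
        · rw [t5, t6, map_add, map_mul, hfix σ _ hX'Ω, hfix σ _ hY'Ω, h]; ring
        · intro v v' hv
          have h1 := act_inf (Q2 := Q.map (algebraMap K Kb)) hσs hσy hσz hv (ρ1 := ρ) (ρ2 := -ρ)
            (by show -(ρ : L) = _; exact h.symm) (neg_sq _)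
          constructor
          · rintro rfl
            exact (hVU _ _).2 _ (h1.1 hF.pos) hF.neg
          · rintro rfl
            exact (hVU _ _).2 _ (h1.2 hF.neg) hF.pos
    · -- the component `D 6`
      rcases hσρ with h | h
      · refine gal_one hv4 _ 6 ?_ ?_
        · rw [t6, map_sub, map_mul, hfix σ _ hX'Ω, hfix σ _ hY'Ω, h]
        · intro v v' hv
          have h1 := act_inf (Q2 := Q.map (algebraMap K Kb)) hσs hσy hσz hv (ρ1 := -ρ) (ρ2 := -ρ)
            (by show -(ρ : L) = σ (-(ρ : L)); rw [map_neg, h]) rfl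
          constructor
          · rintro rfl
            exact (hVU _ _).2 _ (h1.1 hF.neg) hF.neg
          · rintro rfl
            exact (hVU _ _).2 _ (h1.2 hF.neg) hF.neg
      · refine gal_one hv4 _ 5 ?_ ?_
        · rw [t5, t6, map_sub, map_mul, hfix σ _ hX'Ω, hfix σ _ hY'Ω, h]; ring
        · intro v v' hv
          have h1 := act_inf (Q2 := Q.map (algebraMap K Kb)) hσs hσy hσz hv (ρ1 := -ρ) (ρ2 := ρ)
            (by show (ρ : L) = σ (-(ρ : L)); rw [map_neg, h, neg_neg]) (neg_sq _).symm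
          constructor
          · rintro rfl
            exact (hVU _ _).2 _ (h1.1 hF.neg) hF.pos
          · rintro rfl
            exact (hVU _ _).2 _ (h1.2 hF.pos) hF.neg

end Pool.Agent.H80.UN
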